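import Pool.Agent.Lib.MP_c29043_lc.Kd.Poly

/-!
# Weights of bounded dimension: correctness
-/

set_option autoImplicit false

open N68a2faeb N487b59b3 Pool.Agent.Lib.PolyTime

namespace Pool.Agent.Lib.MP_c29043_lc.Kd

open Pool.Agent.Lib.MP_c29043_lc

theorem wt_eq (b : List ℕ) (k : ℕ) (c : List (List Bool)) :
    wt b k c = ∑ i ∈ Finset.range k, (c.getD i []).length * b.getD i 0 := by
  induction k with
  | zero => rfl
  | succ k ih => rw [wt, ih, Finset.sum_range_succ]

/-- `P` is a combination of the first `k` numbers with coefficients at most `M` -/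
def InG (b : List ℕ) (k M P : ℕ) : Prop :=
  ∃ p : ℕ → ℕ, (∀ i < k, p i ≤ M) ∧ P = ∑ i ∈ Finset.range k, p i * b.getD i 0

theorem inG_zero (b : List ℕ) (k M : ℕ) : InG b k M 0 := ⟨fun _ => 0, by simp, by simp⟩

theorem InG.mono {b : List ℕ} {k M M' P : ℕ} (h : InG b k M P) (hM : M ≤ M') : InG b k M' P := by
  obtain ⟨p, h1, h2⟩ := h
  exact ⟨p, fun i hi => (h1 i hi).trans hM, h2⟩

theorem InG.add {b : List ℕ} {k M M' P P' : ℕ} (h : InG b k M P) (h' : InG b k M' P') :
    InG b k (M + M') (P + P') := by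
  obtain ⟨p, h1, h2⟩ := h
  obtain ⟨p', h1', h2'⟩ := h'
  refine ⟨fun i => p i + p' i, fun i hi => add_le_add (h1 i hi) (h1' i hi), ?_⟩
  rw [h2, h2', ← Finset.sum_add_distrib]
  exact Finset.sum_congr rfl fun i _ => by ring

theorem mem_gl {b : List ℕ} {N : List Bool} {k M P : ℕ} (h : InG b k M P) (hM : M ≤ N.length) :
    P ∈ gl b N k := by
  obtain ⟨p, h1, rfl⟩ := h
  induction k with
  | zero => simp [gl]
  | succ k ih =>
    rw [Finset.sum_range_succ, gl, List.mem_flatMap]
    refine ⟨_, ih fun i hi => h1 i (by omega), ?_⟩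
    rw [List.mem_map]
    refine ⟨p k, ?_, rfl⟩
    rw [List.mem_range, List.length_cons]
    have := h1 k (by omega)
    omega

theorem vec_mem (x : List (ℕ × ℕ)) (v : ℕ) : vec x v ∈ (0 :: x.map fun e => e.2) := by
  rw [vec_eq]
  rcases h : (x.filter fun p => decide (p.1 = v)) with _ | ⟨e, l⟩
  · rw [h]
    exact List.mem_cons_self
  · rw [h, List.map_cons, List.headD_cons]
    have he : e ∈ x.filter fun p => decide (p.1 = v) := by rw [h]; exact List.mem_cons_self
    exact List.mem_cons_of_mem _ (List.mem_map_of_mem (List.mem_filter.1 he).1)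

theorem vec_itk {V : List ℕ} (h0 : 0 ∈ V) {A : List ((ℕ × ℕ) × ℕ)} {z : List (ℕ × ℕ)}
    (hz : ∀ v, v ∉ verts A → vec z v = 0) : vec (itk V A z) = stp V A (vec z) := by
  unfold itk stp
  rw [vec_itStep]
  apply vec_tab_eq
  intro v hv
  have h1 : S A (vec z) v = 0 := T_zero_of_not_mem hv
  rw [hz v hv, h1]
  have h2 : cl V 0 ≤ 0 := cl_le h0 le_rfl
  omega

theorem vec_runk_aux {V : List ℕ} (h0 : 0 ∈ V) {A : List ((ℕ × ℕ) × ℕ)} (l : List ℕ) :
    ∀ z : List (ℕ × ℕ), (∀ v, v ∉ verts A → vec z v = 0) →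
      vec (l.foldl (fun z _ => itk V A z) z) = (stp V A)^[l.length] (vec z) := by
  induction l with
  | nil => exact fun z _ => rfl
  | cons b l ih =>
    intro z hz
    have h1 : ∀ v, v ∉ verts A → vec (itk V A z) v = 0 := fun v hv => vec_tab_zero hv
    rw [List.foldl_cons, ih _ h1, vec_itk h0 hz, List.length_cons, Function.iterate_succ_apply]

theorem itK_correct (k : ℕ) (b : List ℕ) (N : List Bool) (M : ℕ) :
    LfpCorrect (fun A => (∀ e ∈ A, InG b k M e.2) ∧ ((verts A).length + 2) * M ≤ N.length)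
      (itK k (b, N)) := by
  rintro A x ⟨hA1, hA2⟩ hA h1 h2 h3
  have hcard : (verts A).toFinset.card = (verts A).length :=
    List.toFinset_card_of_nodup (verts_nodup A)
  have hy : IsLfp A (vec x) ((S A)^[(verts A).toFinset.card * wts A] (vec x)) :=
    isLfp_iterate (V := (verts A).toFinset) (W := wts A)
      (fun e he => by rw [List.mem_toFinset]; exact (mem_verts he).2) le_wts h1
      (fun v hv => h2 v (by rwa [List.mem_toFinset] at hv)) le_rfl
  set y := (S A)^[(verts A).toFinset.card * wts A] (vec x) with hydef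
  have hB : ∀ v, v ∉ (verts A).toFinset → y v = 0 := by
    intro v hv
    rw [← hy.fix v]
    exact T_zero_of_not_mem (by rwa [List.mem_toFinset] at hv)
  -- the values
  have hval := vals hy hB (V := fun j => {z | ∃ c ∈ (0 :: x.map fun e => e.2), ∃ P Q : ℕ,
      InG b k ((j + 1) * M) P ∧ InG b k ((j + 1) * M) Q ∧ z + Q = c + P})
    ⟨0, List.mem_cons_self, 0, 0, inG_zero _ _ _, inG_zero _ _ _, rfl⟩
    (fun v => ⟨vec x v, vec_mem x v, 0, 0, inG_zero _ _ _, inG_zero _ _ _, rfl⟩)
    (fun e he => ⟨0, List.mem_cons_self, e.2, 0, (hA1 e he).mono (by omega), inG_zero _ _ _,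
      by omega⟩)
    (fun j z hz => by
      obtain ⟨c, hc, P, Q, hP, hQ, h⟩ := hz
      have h4 : (j + 1) * M ≤ (j + 1 + 1) * M := Nat.mul_le_mul_right _ (by omega)
      exact ⟨c, hc, P, Q, hP.mono h4, hQ.mono h4, h⟩)
    (fun j z hz e₁ he₁ e₂ he₂ z' hz' => by
      obtain ⟨c, hc, P, Q, hP, hQ, h⟩ := hz
      have h4 : (j + 1 + 1) * M = (j + 1) * M + M := by ring
      refine ⟨c, hc, P + e₁.2, Q + e₂.2, ?_, ?_, by omega⟩
      · rw [h4]
        exact hP.add (hA1 e₁ he₁)
      · rw [h4]
        exact hQ.add (hA1 e₂ he₂))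
  have hV : ∀ v, y v ∈ cand x (gl b N k) := by
    intro v
    obtain ⟨c, hc, P, Q, hP, hQ, h⟩ := hval v
    rw [hcard] at hP hQ
    unfold cand
    rw [List.mem_flatMap]
    refine ⟨c, hc, ?_⟩
    rw [List.mem_flatMap]
    refine ⟨P, mem_gl hP hA2, ?_⟩
    rw [List.mem_map]
    exact ⟨Q, mem_gl hQ hA2, by omega⟩
  have h0 : 0 ∈ cand x (gl b N k) := by
    unfold cand
    rw [List.mem_flatMap]
    refine ⟨0, List.mem_cons_self, ?_⟩
    rw [List.mem_flatMap]
    have h5 : (0 : ℕ) ∈ gl b N k := mem_gl (inG_zero b k 0) (Nat.zero_le _)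
    refine ⟨0, h5, ?_⟩
    rw [List.mem_map]
    exact ⟨0, h5, rfl⟩
  have hrun : vec (itK k (b, N) (A, x)) = y := by
    unfold itK runk
    rw [vec_runk_aux h0 _ _ h2]
    apply iter_eq hy hV hB
    rw [hcard, List.length_flatMap, List.map_const', List.sum_replicate, smul_eq_mul]
  rw [hrun]
  exact hy

/-! ### The algorithm for the input -/

/-- the digraph with the weights in binary -/
def unWk (k : ℕ) (b : List ℕ) (A : List ((ℕ × ℕ) × List (List Bool))) :
    List ((ℕ × ℕ) × ℕ) := A.map fun e => (e.1, wt b k e.2)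

/-- all coefficients in one list -/
def allC (A : List ((ℕ × ℕ) × List (List Bool))) : List Bool :=
  A.flatMap fun e => e.2.flatMap fun c => c

/-- the bound for the coefficients of the candidates -/
def clk (k : ℕ) (b : List ℕ) (A : List ((ℕ × ℕ) × List (List Bool))) : List Bool :=
  (0 :: 0 :: verts (merge (unWk k b A))).flatMap fun _ => allC A

theorem length_getD_le (c : List (List Bool)) (i : ℕ) :
    (c.getD i []).length ≤ (c.flatMap fun c => c).length := by
  rw [List.getD_eq_getElem?_getD]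
  rcases h : getElem? c i with _ | d
  · exact Nat.zero_le _
  · have hd : d ∈ c := List.mem_of_getElem? h
    rw [Option.getD_some, List.length_flatMap]
    exact List.single_le_sum (fun _ _ => Nat.zero_le _) _ (List.mem_map.mpr ⟨d, hd, rfl⟩)

theorem inG_unWk (k : ℕ) (b : List ℕ) (A : List ((ℕ × ℕ) × List (List Bool))) :
    ∀ e ∈ merge (unWk k b A), InG b k (allC A).length e.2 := by
  intro f hf
  unfold merge at hf
  obtain ⟨u, _, rfl⟩ := List.mem_map.mp hf
  rcases lmax_mem (((unWk k b A).filter fun e => decide (e.1 = u)).map fun e => e.2) with h | h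
  · simp only [h]
    exact inG_zero _ _ _
  · obtain ⟨e, he, h2⟩ := List.mem_map.mp h
    rw [List.mem_filter] at he
    simp only [← h2]
    unfold unWk at he
    obtain ⟨e', he', rfl⟩ := List.mem_map.mp he.1
    simp only [wt_eq]
    refine ⟨fun i => (e'.2.getD i []).length, fun i _ => ?_, rfl⟩
    refine (length_getD_le e'.2 i).trans ?_
    unfold allC
    rw [List.length_flatMap (l := A)]
    exact List.single_le_sum (fun _ _ => Nat.zero_le _) _ (List.mem_map.mpr ⟨e', he', rfl⟩)

theorem length_clk (k : ℕ) (b : List ℕ) (A : List ((ℕ × ℕ) × List (List Bool))) :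
    ((verts (merge (unWk k b A))).length + 2) * (allC A).length ≤ (clk k b A).length := by
  unfold clk
  rw [List.length_flatMap, List.map_const', List.sum_replicate, smul_eq_mul, List.length_cons,
    List.length_cons]

/-- Polynomial time for weights of bounded dimension. -/
theorem bounded_main (k : ℕ) : ∃ f : List ((ℕ × ℕ) × List (List Bool)) × List ℕ → List (ℕ × ℕ),
    IsPolyTime f ∧ ∀ A b,
      (∀ a ∈ A, Even (∑ i ∈ Finset.range k, (a.2.getD i []).length * b.getD i 0)) →
      IsCover (A.map fun a => (a.1,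
        ∑ i ∈ Finset.range k, (a.2.getD i []).length * b.getD i 0)) (vec (f (A, b))) := by
  refine ⟨fun p => solve (itK k (p.2, clk k p.2 p.1)) (merge (unWk k p.2 p.1)), ?_,
    fun A b hA => ?_⟩
  · have h1 : IsPolyTime (fun p : List ((ℕ × ℕ) × List (List Bool)) × List ℕ =>
        merge (unWk k p.2 p.1)) := by
      unfold unWk
      fun_prop
    have h2 : IsPolyTime (fun p : List ((ℕ × ℕ) × List (List Bool)) × List ℕ =>
        clk k p.2 p.1) := by
      unfold clk allC
      fun_prop
    exact pt_comp (g := fun p : (List ℕ × List Bool) × List ((ℕ × ℕ) × ℕ) =>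
        solve (itK k p.1) p.2)
      (f := fun p : List ((ℕ × ℕ) × List (List Bool)) × List ℕ =>
        ((p.2, clk k p.2 p.1), merge (unWk k p.2 p.1)))
      (pt_solve' (pt_itK k)) (by fun_prop)
  · have h3 : ∀ e ∈ unWk k b A, Even e.2 := by
      intro f hf
      unfold unWk at hf
      obtain ⟨e, he, rfl⟩ := List.mem_map.mp hf
      simp only [wt_eq]
      exact hA e he
    have h4 := merge_correct (solve_correct (itK_correct k b (clk k b A) (allC A).length)
      ⟨inG_unWk k b A, length_clk k b A⟩ (isWDigraph_merge h3))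
    have e : unWk k b A = A.map fun a => (a.1,
        ∑ i ∈ Finset.range k, (a.2.getD i []).length * b.getD i 0) := by
      unfold unWk
      simp only [wt_eq]
    rw [← e]
    exact h4

end Pool.Agent.Lib.MP_c29043_lc.Kd
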