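import Pool.Agent.Lib.MP_c29043_lc.Fix

/-!
# The values of least fixed points, and the iteration with candidates
-/

set_option autoImplicit false

namespace Pool.Agent.Lib.MP_c29043_lc.Kd

open Pool.Agent.Lib.MP_c29043_lc

variable {A : List ((ℕ × ℕ) × ℕ)} {x y : ℕ → ℕ}

/-- One round: if the sets of the nodes with values in `V` and `V'` coincide then they contain
everything. -/
theorem vals_step (hy : IsLfp A x y) {V V' : Set ℕ} (h0 : 0 ∈ V) (hx : ∀ v, x v ∈ V)
    (hw : ∀ e ∈ A, e.2 ∈ V) (hVV' : ∀ z ∈ V, ∀ e₁ ∈ A, ∀ e₂ ∈ A, ∀ z' : ℕ,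
      z' + e₂.2 = z + e₁.2 → z' ∈ V') (heq : ∀ v, y v ∈ V' → y v ∈ V) : ∀ v, y v ∈ V := by
  by_contra hcon
  push Not at hcon
  obtain ⟨v₀, hv₀⟩ := hcon
  classical
  set y' : ℕ → ℕ := fun v => if y v ∈ V then y v else y v - 1 with hy'
  have hle : ∀ v, y' v ≤ y v := by
    intro v
    simp only [hy']
    split_ifs <;> omega
  have hpos : ∀ v, y v ∉ V → 0 < y v := by
    intro v hv
    rcases Nat.eq_zero_or_pos (y v) with h | h
    · rw [h] at hv
      exact absurd h0 hv
    · exact h
  have hge : ∀ v, x v ≤ y' v := by
    intro v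
    have h1 := hy.ge v
    simp only [hy']
    split_ifs with h
    · exact h1
    · have h2 : x v ≠ y v := by
        intro h2
        exact h (h2 ▸ hx v)
      omega
  have hS : ∀ v, S A y' v ≤ y' v := by
    intro v
    by_cases hv : y v ∈ V
    · have h1 : S A y' v ≤ S A y v := S_mono hle v
      rw [hy.fix v] at h1
      simp only [hy', if_pos hv]
      exact h1
    · have hp := hpos v hv
      have e1 : y' v = y v - 1 := by simp only [hy', if_neg hv]
      rw [e1]
      have hTT : ∀ u, T A y u ≤ T A y' u := T_anti hle
      apply T_le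
      intro e he hev
      have hfix : T A (T A y) v = y v := hy.fix v
      have h2 : e.2 - T A y e.1.1 ≤ y v := by
        have h3 := le_T (x := T A y) he
        rw [hev, hfix] at h3
        exact h3
      have h4 := hTT e.1.1
      by_cases h5 : e.2 - T A y e.1.1 = y v
      · -- tight
        by_cases h6 : T A y e.1.1 = 0
        · exfalso
          rw [h6, Nat.sub_zero] at h5
          exact hv (h5 ▸ hw e he)
        · obtain ⟨f, hf, hfv, h7⟩ := T_attained (Nat.pos_of_ne_zero h6)
          have h8 : y f.1.1 ∉ V := by
            intro h9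
            apply hv
            apply heq
            refine hVV' _ h9 e he f hf _ ?_
            omega
          have h9 := hpos _ h8
          have h10 : y' f.1.1 = y f.1.1 - 1 := by simp only [hy', if_neg h8]
          have h11 := le_T (x := y') hf
          rw [hfv, h10] at h11
          omega
      · omega
  have h1 := hy.least y' hge hS v₀
  have h2 := hpos v₀ hv₀
  have h3 : y' v₀ = y v₀ - 1 := by simp only [hy', if_neg hv₀]
  omega

/-- All values lie in the last of `n + 2` sets. -/
theorem vals (hy : IsLfp A x y) {B : Finset ℕ} (hB : ∀ v, v ∉ B → y v = 0) {V : ℕ → Set ℕ}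
    (h0 : 0 ∈ V 0) (hx : ∀ v, x v ∈ V 0) (hw : ∀ e ∈ A, e.2 ∈ V 0)
    (hmono : ∀ j, V j ⊆ V (j + 1))
    (hstep : ∀ j, ∀ z ∈ V j, ∀ e₁ ∈ A, ∀ e₂ ∈ A, ∀ z' : ℕ, z' + e₂.2 = z + e₁.2 →
      z' ∈ V (j + 1)) : ∀ v, y v ∈ V (B.card + 1) := by
  have hm : ∀ i j, i ≤ j → V i ⊆ V j := by
    intro i j hij
    induction hij with
    | refl => exact fun _ h => h
    | step _ ih => exact fun z hz => hmono _ (ih hz)
  by_contra hcon
  push Not at hcon
  obtain ⟨v₀, hv₀⟩ := hcon
  classical
  -- the sets of nodes with values in `V j` grow strictly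
  have key : ∀ j, j ≤ B.card + 1 → j ≤ (B.filter fun v => y v ∈ V j).card := by
    intro j
    induction j with
    | zero => intro _; exact Nat.zero_le _
    | succ j ih =>
      intro hj
      have h1 := ih (by omega)
      by_contra h2
      have h3 : (B.filter fun v => y v ∈ V j) ⊆ B.filter fun v => y v ∈ V (j + 1) := by
        intro v hv
        rw [Finset.mem_filter] at hv ⊢
        exact ⟨hv.1, hmono j hv.2⟩
      have h4 := Finset.card_le_card h3
      have h5 : (B.filter fun v => y v ∈ V j) = B.filter fun v => y v ∈ V (j + 1) :=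
        Finset.eq_of_subset_of_card_le h3 (by omega)
      have h6 : ∀ v, y v ∈ V (j + 1) → y v ∈ V j := by
        intro v hv
        by_cases hvB : v ∈ B
        · have : v ∈ B.filter fun v => y v ∈ V (j + 1) := Finset.mem_filter.2 ⟨hvB, hv⟩
          rw [← h5] at this
          exact (Finset.mem_filter.1 this).2
        · rw [hB v hvB]
          exact hm 0 j (Nat.zero_le _) h0
      have h7 := vals_step hy (hm 0 j (Nat.zero_le _) h0) (fun v => hm 0 j (Nat.zero_le _) (hx v))
        (fun e he => hm 0 j (Nat.zero_le _) (hw e he)) (hstep j) h6 v₀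
      exact hv₀ (hm j _ (by omega) h7)
  have h1 := key (B.card + 1) le_rfl
  have h2 := Finset.card_le_card (Finset.filter_subset (fun v => y v ∈ V (B.card + 1)) B)
  omega

/-! ### The iteration -/

/-- the least candidate that is at least `z` -/
def cl (V : List ℕ) (z : ℕ) : ℕ := (V.filter fun c => decide (z ≤ c)).foldl min (lmax V)

theorem foldl_min_le (l : List ℕ) (s : ℕ) : l.foldl min s ≤ s ∧ ∀ c ∈ l, l.foldl min s ≤ c := by
  induction l generalizing s with
  | nil => simp
  | cons b l ih =>
    rw [List.foldl_cons]
    obtain ⟨h1, h2⟩ := ih (min s b)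
    refine ⟨h1.trans (min_le_left _ _), fun c hc => ?_⟩
    rcases List.mem_cons.1 hc with rfl | hc
    · exact h1.trans (min_le_right _ _)
    · exact h2 c hc

theorem foldl_min_mem (l : List ℕ) (s : ℕ) : l.foldl min s = s ∨ l.foldl min s ∈ l := by
  induction l generalizing s with
  | nil => left; rfl
  | cons b l ih =>
    rw [List.foldl_cons]
    rcases ih (min s b) with h | h
    · rw [h]
      rcases min_choice s b with h1 | h1
      · left; exact h1
      · right; rw [h1]; exact List.mem_cons_self
    · right; exact List.mem_cons_of_mem _ h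

theorem cl_le {V : List ℕ} {z c : ℕ} (hc : c ∈ V) (hzc : z ≤ c) : cl V z ≤ c :=
  (foldl_min_le _ _).2 c (List.mem_filter.2 ⟨hc, by simpa using hzc⟩)

theorem cl_le_lmax (V : List ℕ) (z : ℕ) : cl V z ≤ lmax V := (foldl_min_le _ _).1

theorem le_cl {V : List ℕ} {z c : ℕ} (hc : c ∈ V) (hzc : z ≤ c) : z ≤ cl V z ∧ cl V z ∈ V := by
  have h0 : lmax V ∈ V := by
    rcases lmax_mem V with h | h
    · have h1 := le_lmax hc
      have h2 : c = lmax V := by omega
      rw [← h2]
      exact hc
    · exact h
  rcases foldl_min_mem (V.filter fun c => decide (z ≤ c)) (lmax V) with h | h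
  · have h1 : cl V z = lmax V := h
    rw [h1]
    exact ⟨hzc.trans (le_lmax hc), h0⟩
  · have h1 : cl V z ∈ V.filter fun c => decide (z ≤ c) := h
    rw [List.mem_filter] at h1
    exact ⟨by simpa using h1.2, h1.1⟩

/-- one step -/
def stp (V : List ℕ) (A : List ((ℕ × ℕ) × ℕ)) (z : ℕ → ℕ) (v : ℕ) : ℕ :=
  max (z v) (cl V (S A z v))

/-- The iteration computes the least fixed point, if its values are among the candidates. -/
theorem iter_eq (hy : IsLfp A x y) {V : List ℕ} (hV : ∀ v, y v ∈ V) {B : Finset ℕ}
    (hB : ∀ v, v ∉ B → y v = 0) {m : ℕ} (hm : B.card * V.length ≤ m) :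
    (stp V A)^[m] x = y := by
  -- invariants
  have inv : ∀ t, (∀ v, x v ≤ (stp V A)^[t] x v) ∧ ∀ v, (stp V A)^[t] x v ≤ y v := by
    intro t
    induction t with
    | zero => exact ⟨fun v => le_rfl, hy.ge⟩
    | succ t ih =>
      constructor
      · intro v
        rw [Function.iterate_succ_apply']
        exact (ih.1 v).trans (le_max_left _ _)
      · intro v
        rw [Function.iterate_succ_apply']
        apply max_le (ih.2 v)
        apply cl_le (hV v)
        have := S_mono (A := A) ih.2 v
        rwa [hy.fix v] at this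
  -- stable points
  have stab : ∀ t, stp V A ((stp V A)^[t] x) = (stp V A)^[t] x → (stp V A)^[t] x = y := by
    intro t ht
    funext v
    apply le_antisymm ((inv t).2 v)
    refine hy.least _ (inv t).1 (fun u => ?_) v
    have h1 : cl V (S A ((stp V A)^[t] x) u) ≤ (stp V A)^[t] x u := by
      have h2 := congrFun ht u
      have h3 : cl V (S A ((stp V A)^[t] x) u) ≤ stp V A ((stp V A)^[t] x) u := le_max_right _ _
      rwa [h2] at h3
    refine le_trans ?_ h1
    refine (le_cl (hV u) ?_).1
    have := S_mono (A := A) (inv t).2 u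
    rwa [hy.fix u] at this
  -- the potential
  set Φ : (ℕ → ℕ) → ℕ := fun z => ∑ v ∈ B, (V.filter fun c => decide (z v < c)).length with hΦ
  have hdec : ∀ t, stp V A ((stp V A)^[t] x) ≠ (stp V A)^[t] x →
      Φ ((stp V A)^[t + 1] x) < Φ ((stp V A)^[t] x) := by
    intro t ht
    rw [Function.iterate_succ_apply']
    set z := (stp V A)^[t] x with hz
    have hle : ∀ v, z v ≤ stp V A z v := fun v => le_max_left _ _
    have hmon : ∀ v, (V.filter fun c => decide (stp V A z v < c)).length ≤
        (V.filter fun c => decide (z v < c)).length := by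
      intro v
      rw [← List.countP_eq_length_filter, ← List.countP_eq_length_filter]
      apply List.countP_mono_left
      intro c _ hc
      simp only [decide_eq_true_eq] at hc ⊢
      exact lt_of_le_of_lt (hle v) hc
    apply Finset.sum_lt_sum (fun v _ => hmon v)
    by_contra hcon
    push Not at hcon
    apply ht
    funext v
    by_contra hv
    have hlt : z v < stp V A z v := lt_of_le_of_ne (hle v) (Ne.symm hv)
    have hyv : stp V A z v ≤ y v := by
      have := (inv (t + 1)).2 v
      rwa [Function.iterate_succ_apply'] at this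
    have hvB : v ∈ B := by
      by_contra hvB
      have := hB v hvB
      omega
    have hSz : S A z v ≤ y v := by
      have := S_mono (A := A) (inv t).2 v
      rwa [hy.fix v] at this
    have hmem : stp V A z v ∈ V := by
      have h1 : stp V A z v = cl V (S A z v) := by
        unfold stp at hlt ⊢
        rcases max_choice (z v) (cl V (S A z v)) with h | h
        · rw [h] at hlt
          exact absurd hlt (lt_irrefl _)
        · exact h
      rw [h1]
      exact (le_cl (hV v) hSz).2
    have h2 := hcon v hvB
    have h3 : (V.filter fun c => decide (stp V A z v < c)).length <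
        (V.filter fun c => decide (z v < c)).length := by
      have e1 : (V.filter fun c => decide (stp V A z v < c)) =
          ((V.filter fun c => decide (z v < c)).filter fun c => decide (stp V A z v < c)) := by
        rw [List.filter_filter]
        apply List.filter_congr
        intro c _
        by_cases hc : stp V A z v < c
        · simp [hc, lt_trans hlt hc]
        · simp [hc]
      rw [e1]
      have hmem2 : stp V A z v ∈ V.filter fun c => decide (z v < c) :=
        List.mem_filter.2 ⟨hmem, by simpa using hlt⟩
      exact List.length_filter_lt_length_iff_exists.2 ⟨_, hmem2, by simp⟩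
    omega
  have hΦ0 : Φ x ≤ B.card * V.length := by
    simp only [hΦ]
    calc ∑ v ∈ B, (V.filter fun c => decide (x v < c)).length ≤ ∑ _v ∈ B, V.length :=
          Finset.sum_le_sum fun v _ => List.length_filter_le _ _
      _ = B.card * V.length := by rw [Finset.sum_const, smul_eq_mul]
  have hex : ∃ t ≤ B.card * V.length, stp V A ((stp V A)^[t] x) = (stp V A)^[t] x := by
    by_contra hcon
    push Not at hcon
    have h1 : ∀ t, t ≤ B.card * V.length + 1 → Φ ((stp V A)^[t] x) + t ≤ Φ x := by
      intro t
      induction t with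
      | zero => intro _; simp
      | succ t ih =>
        intro ht
        have h2 := ih (by omega)
        have h3 := hdec t (hcon t (by omega))
        omega
    have := h1 (B.card * V.length + 1) le_rfl
    omega
  obtain ⟨t, ht, hst⟩ := hex
  have h1 := stab t hst
  obtain ⟨j, rfl⟩ : ∃ j, m = t + j := ⟨m - t, by omega⟩
  have h2 : ∀ j, (stp V A)^[t + j] x = (stp V A)^[t] x := by
    intro j
    induction j with
    | zero => rfl
    | succ j ih => rw [← add_assoc, Function.iterate_succ_apply', ih, hst]
  rw [h2, h1]

end Pool.Agent.Lib.MP_c29043_lc.Kd
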