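import Pool.Agent.Lib.MP_c29043_lc.Unary
import Pool.Agent.Lib.MP_c29043_lc.Kd.Vals
import Pool.Agent.Lib.PolyTime.Main
import Pool.Agent.Lib.PolyTime.Mul

/-!
# Weights of bounded dimension: the algorithm and its running time
-/

set_option autoImplicit false

open N68a2faeb N487b59b3 Pool.Agent.Lib.PolyTime

namespace Pool.Agent.Lib.MP_c29043_lc.Kd

open Pool.Agent.Lib.MP_c29043_lc

variable {α β : Type} [N487b59b3 α] [N487b59b3 β]

/-- the weight with the coefficients in unary -/
def wt (b : List ℕ) : ℕ → List (List Bool) → ℕ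
  | 0, _ => 0
  | k + 1, c => wt b k c + (c.getD k []).length * b.getD k 0

/-- all weights with coefficients at most the length of `N` -/
def gl (b : List ℕ) (N : List Bool) : ℕ → List ℕ
  | 0 => [0]
  | k + 1 => (gl b N k).flatMap fun s => (List.range (true :: N).length).map fun p =>
      s + p * b.getD k 0

/-- the candidates for the values of the least fixed point -/
def cand (x : List (ℕ × ℕ)) (G : List ℕ) : List ℕ :=
  (0 :: x.map fun e => e.2).flatMap fun c => G.flatMap fun P => G.map fun Q => c + P - Q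

/-- one step of the iteration -/
def itk (V : List ℕ) (A : List ((ℕ × ℕ) × ℕ)) (z : List (ℕ × ℕ)) : List (ℕ × ℕ) :=
  tab (verts A) fun v => max (vec z v) (cl V (vec (itStep A z) v))

/-- the iteration with given candidates -/
def runk (V : List ℕ) (A : List ((ℕ × ℕ) × ℕ)) (x : List (ℕ × ℕ)) : List (ℕ × ℕ) :=
  ((verts A).flatMap fun _ => V).foldl (fun z _ => itk V A z) x

/-- the subroutine for least fixed points -/
def itK (k : ℕ) (c : List ℕ × List Bool) (p : List ((ℕ × ℕ) × ℕ) × List (ℕ × ℕ)) :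
    List (ℕ × ℕ) := runk (cand p.2 (gl c.1 c.2 k)) p.1 p.2

/-! ### Polynomial time -/

@[fun_prop]
theorem pt_wt (k : ℕ) {b : α → List ℕ} {c : α → List (List Bool)} (hb : IsPolyTime b)
    (hc : IsPolyTime c) : IsPolyTime (fun a => wt (b a) k (c a)) := by
  induction k with
  | zero => exact pt_const 0
  | succ k ih =>
    unfold wt
    have h1 : IsPolyTime (fun a => (c a).getD k []) := pt_getD [] hc (pt_const k)
    have h2 : IsPolyTime (fun a => (b a).getD k 0) := pt_getD 0 hb (pt_const k)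
    exact pt_add ih (pt_mul (pt_length h1) h2)

@[fun_prop]
theorem pt_gl (k : ℕ) {b : α → List ℕ} {N : α → List Bool} (hb : IsPolyTime b)
    (hN : IsPolyTime N) : IsPolyTime (fun a => gl (b a) (N a) k) := by
  induction k with
  | zero => exact pt_const [0]
  | succ k ih =>
    unfold gl
    have h2 : IsPolyTime (fun a => (b a).getD k 0) := pt_getD 0 hb (pt_const k)
    have h3 : IsPolyTime (fun p : (α × ℕ) × ℕ => (b p.1.1).getD k 0) :=
      pt_comp (g := fun a => (b a).getD k 0) h2 (by fun_prop)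
    refine pt_flatMap ih (pt_map ?_ ?_)
    · exact pt_range (pt_cons (pt_const true) (pt_comp hN pt_fst'))
    · exact pt_add (by fun_prop) (pt_mul (by fun_prop) h3)

@[fun_prop]
theorem pt_cand {x : α → List (ℕ × ℕ)} {G : α → List ℕ} (hx : IsPolyTime x)
    (hG : IsPolyTime G) : IsPolyTime (fun a => cand (x a) (G a)) := by
  unfold cand
  fun_prop

@[fun_prop]
theorem pt_cl {V : α → List ℕ} {z : α → ℕ} (hV : IsPolyTime V) (hz : IsPolyTime z) :
    IsPolyTime (fun a => cl (V a) (z a)) := by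
  unfold cl
  have h1 : IsPolyTime (fun a => lmax (V a)) := pt_lmax hV
  obtain ⟨q, hq⟩ := exists_size h1
  refine pt_foldl (g := fun (_ : α) (s b : ℕ) => min s b) (by fun_prop) (by fun_prop) h1 q ?_
  intro a k
  exact (sz_mono (foldl_min_le _ _).1).trans (hq a)

@[fun_prop]
theorem pt_itk {V : α → List ℕ} {A : α → List ((ℕ × ℕ) × ℕ)} {z : α → List (ℕ × ℕ)}
    (hV : IsPolyTime V) (hA : IsPolyTime A) (hz : IsPolyTime z) :
    IsPolyTime (fun a => itk (V a) (A a) (z a)) := by
  unfold itk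
  fun_prop

theorem vec_le_lmax (x : List (ℕ × ℕ)) (v : ℕ) : vec x v ≤ lmax (x.map fun e => e.2) := by
  rw [vec_eq]
  rcases h : (x.filter fun p => decide (p.1 = v)) with _ | ⟨e, l⟩
  · rw [h]
    exact Nat.zero_le _
  · rw [h, List.map_cons, List.headD_cons]
    have he : e ∈ x.filter fun p => decide (p.1 = v) := by rw [h]; exact List.mem_cons_self
    exact le_lmax (List.mem_map_of_mem (List.mem_filter.1 he).1)

@[fun_prop]
theorem pt_runk {V : α → List ℕ} {A : α → List ((ℕ × ℕ) × ℕ)} {x : α → List (ℕ × ℕ)}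
    (hV : IsPolyTime V) (hA : IsPolyTime A) (hx : IsPolyTime x) :
    IsPolyTime (fun a => runk (V a) (A a) (x a)) := by
  have hB : IsPolyTime (fun a => (x a, tab (verts (A a)) fun _ =>
      max (lmax ((x a).map fun e => e.2)) (lmax (V a)))) := by fun_prop
  obtain ⟨q, hq⟩ := exists_size hB
  unfold runk
  refine pt_foldl (g := fun a z _ => itk (V a) (A a) z) (by fun_prop) (by fun_prop) hx q ?_
  intro a k
  have h1 := hq a
  rw [sz_pair] at h1
  set W := max (lmax ((x a).map fun e => e.2)) (lmax (V a)) with hW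
  -- all values are at most `W`
  have h2 : ∀ (l : List ℕ) (z : List (ℕ × ℕ)), (∀ v, vec z v ≤ W) →
      ∀ v, vec (l.foldl (fun z _ => itk (V a) (A a) z) z) v ≤ W := by
    intro l
    induction l with
    | nil => exact fun z hz => hz
    | cons b l ih =>
      intro z hz
      rw [List.foldl_cons]
      apply ih
      intro v
      by_cases hv : v ∈ verts (A a)
      · unfold itk
        rw [vec_tab hv]
        exact max_le (hz v) ((cl_le_lmax _ _).trans (le_max_right _ _))
      · unfold itk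
        rw [vec_tab_zero hv]
        exact Nat.zero_le _
  have h3 : ∀ v, vec (x a) v ≤ W := fun v => (vec_le_lmax _ _).trans (le_max_left _ _)
  rcases List.eq_nil_or_concat ((((verts (A a)).flatMap fun _ => V a)).take k) with
    h | ⟨l', b, h⟩
  · rw [h, List.foldl_nil]
    omega
  · rw [h, List.concat_eq_append, List.foldl_append, List.foldl_cons, List.foldl_nil]
    have h4 := h2 l' (x a) h3
    have h5 : sz (itk (V a) (A a) (l'.foldl (fun z _ => itk (V a) (A a) z) (x a))) ≤
        sz (tab (verts (A a)) fun _ => W) :=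
      sz_tab_mono _ fun v => max_le (h4 v) ((cl_le_lmax _ _).trans (le_max_right _ _))
    omega

theorem pt_itK (k : ℕ) : IsPolyTime (fun p : (List ℕ × List Bool) ×
    (List ((ℕ × ℕ) × ℕ) × List (ℕ × ℕ)) => itK k p.1 p.2) := by
  unfold itK
  fun_prop

/-! ### The algorithm with an arbitrary parameter -/

theorem pt_halve' {L : β → List ((ℕ × ℕ) × ℕ) × List (ℕ × ℕ) → List (ℕ × ℕ)}
    (hL : IsPolyTime (fun p : β × (List ((ℕ × ℕ) × ℕ) × List (ℕ × ℕ)) => L p.1 p.2))
    {c : α → β} {A : α → List ((ℕ × ℕ) × ℕ)} {x : α → List (ℕ × ℕ)} {h : α → ℕ}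
    (hc : IsPolyTime c) (hA : IsPolyTime A)
    (hx : IsPolyTime x) (hh : IsPolyTime h) :
    IsPolyTime (fun a => halve (L (c a)) (A a) (x a) (h a)) := by
  have h1 : IsPolyTime (fun a => L (c a) (A a, x a)) :=
    pt_comp (g := fun p : β × (List ((ℕ × ℕ) × ℕ) × List (ℕ × ℕ)) => L p.1 p.2)
      (f := fun a => (c a, (A a, x a))) hL (by fun_prop)
  have h2 : IsPolyTime (fun p : α × ℕ => L (c p.1) (A p.1, x p.1)) :=
    pt_comp (g := fun a => L (c a) (A a, x a)) h1 pt_fst'
  unfold halve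
  fun_prop

theorem pt_corner' {L : β → List ((ℕ × ℕ) × ℕ) × List (ℕ × ℕ) → List (ℕ × ℕ)}
    (hL : IsPolyTime (fun p : β × (List ((ℕ × ℕ) × ℕ) × List (ℕ × ℕ)) => L p.1 p.2)) :
    IsPolyTime (fun p : β × List ((ℕ × ℕ) × ℕ) => corner (L p.1) p.2) := by
  have hB : IsPolyTime (fun p : β × List ((ℕ × ℕ) × ℕ) =>
      tab (verts p.2) fun _ => wts p.2) := by
    fun_prop
  obtain ⟨q, hq⟩ := exists_size hB
  refine pt_foldl (α := β × List ((ℕ × ℕ) × ℕ))
    (g := fun p x h => halve (L p.1) p.2 x h) ?_ (by fun_prop) (by fun_prop) q ?_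
  · exact pt_halve' hL (by fun_prop) (by fun_prop) (by fun_prop) (by fun_prop)
  · intro p k
    refine le_trans ?_ (hq p)
    rcases List.eq_nil_or_concat ((pws (bitsOf (wts p.2))).2.take k) with h | ⟨l', b, h⟩
    · rw [h]
      exact sz_tab_mono _ (fun v => Nat.zero_le _)
    · rw [h, List.concat_eq_append, List.foldl_append, List.foldl_cons, List.foldl_nil]
      exact sz_tab_mono _ (fun v => min_le_left _ _)

theorem pt_solve' {L : β → List ((ℕ × ℕ) × ℕ) × List (ℕ × ℕ) → List (ℕ × ℕ)}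
    (hL : IsPolyTime (fun p : β × (List ((ℕ × ℕ) × ℕ) × List (ℕ × ℕ)) => L p.1 p.2)) :
    IsPolyTime (fun p : β × List ((ℕ × ℕ) × ℕ) => solve (L p.1) p.2) := by
  have hc := pt_corner' hL
  have h1 : IsPolyTime (fun p : β × List ((ℕ × ℕ) × ℕ) =>
      L p.1 (p.2, corner (L p.1) p.2)) :=
    pt_comp (g := fun p : β × (List ((ℕ × ℕ) × ℕ) × List (ℕ × ℕ)) => L p.1 p.2)
      (f := fun p : β × List ((ℕ × ℕ) × ℕ) => (p.1, (p.2, corner (L p.1) p.2)))
      hL (by fun_prop)
  have h2 : IsPolyTime (fun p : (β × List ((ℕ × ℕ) × ℕ)) × ℕ =>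
      L p.1.1 (p.1.2, corner (L p.1.1) p.1.2)) :=
    pt_comp (g := fun p : β × List ((ℕ × ℕ) × ℕ) => L p.1 (p.2, corner (L p.1) p.2))
      h1 pt_fst'
  unfold solve
  refine pt_tab (by fun_prop) ?_
  have h3 : IsPolyTime (fun p : (β × List ((ℕ × ℕ) × ℕ)) × ℕ =>
      decide (vec (L p.1.1 (p.1.2, corner (L p.1.1) p.1.2)) p.2 % 2 = 1)) :=
    pt_odd (pt_vec h2 (by fun_prop))
  refine pt_ite h3 ?_ ?_
  · exact pt_T (by fun_prop) h2 (by fun_prop)
  · exact pt_vec h2 (by fun_prop)

end Pool.Agent.Lib.MP_c29043_lc.Kd
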